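import Pool.Agent.H8.AA.Def

/-! # [H85 AA POL] the translation from polynomials to coefficient vectors -/

namespace Pool.Agent.H85.AA

open Finset Pool.Agent.H8.AA

private theorem exp_zero (a b : ℕ) :
    (Finsupp.single (0 : Fin 2) a + Finsupp.single (1 : Fin 2) b : Fin 2 →₀ ℕ) 0 = a := by
  simp

private theorem exp_one (a b : ℕ) :
    (Finsupp.single (0 : Fin 2) a + Finsupp.single (1 : Fin 2) b : Fin 2 →₀ ℕ) 1 = b := by
  simp

private theorem exp_ext (m : Fin 2 →₀ ℕ) : Finsupp.single (0 : Fin 2) (m 0) + Finsupp.single 1 (m 1) = m := by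
  ext i
  fin_cases i <;> simp

theorem pol_coeff {n : ℕ} (c : Ix n → ℤ) (m : Fin 2 →₀ ℕ) : (pol c).coeff m = co c (m 0) (m 1) := by
  unfold pol
  rw [MvPolynomial.coeff_sum]
  simp only [MvPolynomial.coeff_monomial]
  unfold co
  split_ifs with h
  · rw [Finset.sum_eq_single (ix (m 0) (m 1) h)]
    · rw [if_pos]
      simp only [ix]
      exact exp_ext m
    · intro p _ hp
      rw [if_neg]
      intro he
      apply hp
      apply Subtype.ext
      apply Prod.ext
      · apply Fin.ext
        simp only [ix]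
        rw [← he, exp_zero]
      · apply Fin.ext
        simp only [ix]
        rw [← he, exp_one]
    · intro h'
      exact absurd (Finset.mem_univ _) h'
  · apply Finset.sum_eq_zero
    intro p _
    rw [if_neg]
    intro he
    apply h
    have h0 : m 0 = p.1.1.val := by rw [← he, exp_zero]
    have h1 : m 1 = p.1.2.val := by rw [← he, exp_one]
    rw [h0, h1]
    exact p.2

theorem pol_eval {n : ℕ} (c : Ix n → ℤ) (P : Fin 2 → ℤ) :
    MvPolynomial.eval P (pol c) = ev n (co c) (P 0) (P 1) := by
  unfold pol ev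
  rw [map_sum, Finset.sum_sigma']
  refine Finset.sum_bij' (i := fun (p : Ix n) _ => (⟨p.1.1.val + p.1.2.val, p.1.2.val⟩ : (_ : ℕ) × ℕ))
    (j := fun (s : (_ : ℕ) × ℕ) hs => ix (s.1 - s.2) s.2 (by
      rw [Finset.mem_sigma] at hs
      have h1 := Finset.mem_range.1 hs.1
      have h2 := Finset.mem_range.1 hs.2
      omega)) ?_ ?_ ?_ ?_ ?_
  · intro p _
    rw [Finset.mem_sigma]
    constructor
    · rw [Finset.mem_range]
      have := p.2
      simp only
      omega
    · rw [Finset.mem_range]
      simp only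
      omega
  · intro s _
    exact Finset.mem_univ _
  · intro p _
    apply Subtype.ext
    apply Prod.ext
    · apply Fin.ext
      simp only [ix]
      omega
    · apply Fin.ext
      simp only [ix]
  · intro s hs
    rw [Finset.mem_sigma] at hs
    have h1 := Finset.mem_range.1 hs.1
    have h2 := Finset.mem_range.1 hs.2
    obtain ⟨k, j⟩ := s
    simp only [ix] at *
    have : k - j + j = k := by omega
    rw [this]
  · intro p _
    have h1 : p.1.1.val + p.1.2.val - p.1.2.val = p.1.1.val := by omega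
    simp only [h1]
    rw [co_of_le c p.2, MvPolynomial.eval_monomial, Finsupp.prod_add_index', Finsupp.prod_single_index,
      Finsupp.prod_single_index]
    · rfl
    · simp
    · simp
    · simp
    · intro a b₁ b₂
      rw [pow_add]

theorem pol_deg {n : ℕ} (c : Ix n → ℤ) : (pol c).totalDegree ≤ n := by
  unfold pol
  apply MvPolynomial.totalDegree_finsetSum_le
  intro p _
  refine (MvPolynomial.totalDegree_monomial_le _ _).trans ?_
  rw [Finsupp.sum_add_index', Finsupp.sum_single_index, Finsupp.sum_single_index]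
  · exact p.2
  · rfl
  · rfl
  · simp
  · intro a b₁ b₂
    rfl

theorem pol_inj {n : ℕ} : Function.Injective (pol (n := n)) := by
  intro c c' h
  funext p
  have h1 := pol_coeff c (Finsupp.single 0 p.1.1.val + Finsupp.single 1 p.1.2.val)
  have h2 := pol_coeff c' (Finsupp.single 0 p.1.1.val + Finsupp.single 1 p.1.2.val)
  rw [exp_zero, exp_one, co_of_le c p.2] at h1
  rw [exp_zero, exp_one, co_of_le c' p.2] at h2
  have h3 : c p = c' p := by
    have e1 : ix p.1.1.val p.1.2.val p.2 = p := rfl
    rw [e1] at h1 h2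
    rw [← h1, ← h2, h]
  exact h3

theorem pol_surj {n : ℕ} (F : MvPolynomial (Fin 2) ℤ) (hF : F.totalDegree ≤ n) :
    pol (fun p : Ix n => F.coeff (Finsupp.single 0 p.1.1.val + Finsupp.single 1 p.1.2.val)) = F := by
  ext m
  rw [pol_coeff]
  unfold co
  split_ifs with h
  · simp only [ix]
    rw [exp_ext]
  · symm
    apply MvPolynomial.coeff_eq_zero_of_totalDegree_lt
    refine lt_of_le_of_lt hF ?_
    have h1 : ∑ i ∈ m.support, m i = m 0 + m 1 := by
      have h2 : ∑ i ∈ m.support, m i = ∑ i : Fin 2, m i := by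
        apply Finset.sum_subset (Finset.subset_univ _)
        intro i _ hi
        simpa using hi
      rw [h2, Fin.sum_univ_two]
    rw [h1]
    omega

theorem pol_set (n H : ℕ) (Q : MvPolynomial (Fin 2) ℤ → Prop) :
    Set.ncard {F : MvPolynomial (Fin 2) ℤ | F.totalDegree ≤ n ∧ (∀ m, |F.coeff m| ≤ (H : ℤ)) ∧ Q F} =
      Set.ncard {c : Ix n → ℤ | (∀ p, |c p| ≤ (H : ℤ)) ∧ Q (pol c)} := by
  rw [← Set.ncard_image_of_injective _ (pol_inj (n := n))]
  congr 1
  ext F
  constructor
  · rintro ⟨h1, h2, h3⟩
    refine ⟨fun p : Ix n => F.coeff (Finsupp.single 0 p.1.1.val + Finsupp.single 1 p.1.2.val), ⟨?_, ?_⟩, ?_⟩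
    · intro p
      exact h2 _
    · rw [pol_surj F h1]
      exact h3
    · exact pol_surj F h1
  · rintro ⟨c, ⟨h1, h2⟩, rfl⟩
    refine ⟨pol_deg c, ?_, h2⟩
    intro m
    rw [pol_coeff]
    unfold co
    split_ifs with h
    · exact h1 _
    · simp

end Pool.Agent.H85.AA
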